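import Mathlib

/-!
# MP_76d2cf_co: divisibility of period ratios for inside-out polytopes fails

The triangle `P = conv{(1/2,1/2), (1,0), (1,4)}` with the single hyperplane `x = y` has
`p_0 = p_1 = p^w_1 = 1` and `p^w_0 = 2`, so `p_1 p^w_0 ∤ p_0 p^w_1`.
-/

set_option autoImplicit false

namespace Pool.Agent.Results.MP_76d2cf_co.PeriodRatioFails

/-! ## Definitions -/

/-- The real point with the same (rational) coordinates. -/
def toReal {d : ℕ} (v : Fin d → ℚ) : Fin d → ℝ := fun i => (v i : ℝ)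

/-- A rational convex polytope: the convex hull of finitely many rational points. -/
def IsRationalPolytope {d : ℕ} (P : Set (Fin d → ℝ)) : Prop :=
  ∃ V : Finset (Fin d → ℚ), P = convexHull ℝ (toReal '' (V : Set (Fin d → ℚ)))

/-- The dimension of `P`: the dimension of its affine hull. -/
noncomputable def dimP {d : ℕ} (P : Set (Fin d → ℝ)) : ℕ :=
  Module.finrank ℝ (vectorSpan ℝ P)

/-- The rational hyperplane `∑ aᵢ xᵢ = b` attached to the pair `(a, b)`. -/
def hyperplane {d : ℕ} (h : (Fin d → ℚ) × ℚ) : Set (Fin d → ℝ) :=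
  {x | ∑ i, (h.1 i : ℝ) * x i = (h.2 : ℝ)}

/-- `(P, H)` is an inside-out polytope: `P` is a rational polytope of dimension at least one, every
member of `H` is a rational hyperplane not containing `P`, and every intersection of a nonempty
subfamily of `H` that meets `P` meets the relative interior of `P`. -/
def IsInsideOut {d : ℕ} (P : Set (Fin d → ℝ)) (H : Finset ((Fin d → ℚ) × ℚ)) : Prop :=
  IsRationalPolytope P ∧ 1 ≤ dimP P ∧ (∀ h ∈ H, h.1 ≠ 0) ∧ (∀ h ∈ H, ¬ P ⊆ hyperplane h) ∧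
    ∀ S ⊆ H, S.Nonempty → ((⋂ h ∈ S, hyperplane h) ∩ P).Nonempty →
      ((⋂ h ∈ S, hyperplane h) ∩ intrinsicInterior ℝ P).Nonempty

/-- `E^w(t)`: the number of points of `(1/t)ℤ^d` in the relative interior of `P`. -/
noncomputable def Ew {d : ℕ} (P : Set (Fin d → ℝ)) (t : ℕ) : ℕ :=
  Set.ncard {x : Fin d → ℝ | x ∈ intrinsicInterior ℝ P ∧ ∀ i, ∃ z : ℤ, x i = (z : ℝ) / (t : ℝ)}

/-- `E°(t)`: the number of points of `(1/t)ℤ^d` in the relative interior of `P` that lie on no
member of `H`. -/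
noncomputable def Eo {d : ℕ} (P : Set (Fin d → ℝ)) (H : Finset ((Fin d → ℚ) × ℚ)) (t : ℕ) : ℕ :=
  Set.ncard {x : Fin d → ℝ | x ∈ intrinsicInterior ℝ P ∧ (∀ h ∈ H, x ∉ hyperplane h) ∧
    ∀ i, ∃ z : ℤ, x i = (z : ℝ) / (t : ℝ)}

/-- `c 0, …, c δ` are the coefficient functions of the quasipolynomial `E`, `t ≥ 1`: each is
periodic on `t ≥ 1`, and `E t = ∑_{k ≤ δ} c k t * t ^ k` for all `t ≥ 1`. -/
def IsCoeffs (E : ℕ → ℕ) (δ : ℕ) (c : ℕ → ℕ → ℝ) : Prop :=
  (∀ k ≤ δ, ∃ N : ℕ, 1 ≤ N ∧ ∀ t : ℕ, 1 ≤ t → c k (t + N) = c k t) ∧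
    ∀ t : ℕ, 1 ≤ t → (E t : ℝ) = ∑ k ∈ Finset.range (δ + 1), c k t * (t : ℝ) ^ k

/-- The minimal period of a function of `t ≥ 1` (`0` if it is not periodic). -/
noncomputable def minPeriod (f : ℕ → ℝ) : ℕ :=
  sInf {N : ℕ | 1 ≤ N ∧ ∀ t : ℕ, 1 ≤ t → f (t + N) = f t}

/-! ## Uniqueness of the coefficient functions -/

theorem periodic_mul {f : ℕ → ℝ} {N : ℕ} (h : ∀ t : ℕ, 1 ≤ t → f (t + N) = f t) (m : ℕ) :
    ∀ t : ℕ, 1 ≤ t → f (t + m * N) = f t := by
  induction m with
  | zero => intro t _; simp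
  | succ m ih =>
    intro t ht
    have : t + (m + 1) * N = (t + m * N) + N := by ring
    rw [this, h _ (by omega), ih t ht]

theorem exists_common_period (δ : ℕ) (c : ℕ → ℕ → ℝ)
    (h : ∀ k ≤ δ, ∃ N : ℕ, 1 ≤ N ∧ ∀ t : ℕ, 1 ≤ t → c k (t + N) = c k t) :
    ∃ N : ℕ, 1 ≤ N ∧ ∀ k ≤ δ, ∀ m t : ℕ, 1 ≤ t → c k (t + m * N) = c k t := by
  induction δ with
  | zero =>
    obtain ⟨N, hN, hp⟩ := h 0 le_rfl
    refine ⟨N, hN, ?_⟩
    intro k hk m t ht
    obtain rfl : k = 0 := by omega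
    exact periodic_mul hp m t ht
  | succ δ ih =>
    obtain ⟨N, hN, hp⟩ := ih (fun k hk => h k (by omega))
    obtain ⟨N', hN', hp'⟩ := h (δ + 1) le_rfl
    refine ⟨N * N', Nat.mul_pos hN hN', ?_⟩
    intro k hk m t ht
    rcases Nat.lt_or_ge δ k with h1 | h1
    · obtain rfl : k = δ + 1 := by omega
      have := periodic_mul hp' (m * N) t ht
      rwa [mul_assoc] at this
    · have := hp k h1 (m * N') t ht
      have e : m * (N * N') = m * N' * N := by ring
      rwa [e]

theorem coeffs_unique (E : ℕ → ℕ) (δ : ℕ) (c c' : ℕ → ℕ → ℝ) (h : IsCoeffs E δ c)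
    (h' : IsCoeffs E δ c') : ∀ k ≤ δ, ∀ t : ℕ, 1 ≤ t → c k t = c' k t := by
  obtain ⟨N, hN, hp⟩ := exists_common_period δ c h.1
  obtain ⟨N', hN', hp'⟩ := exists_common_period δ c' h'.1
  intro k hk t ht
  set p : Polynomial ℝ := ∑ j ∈ Finset.range (δ + 1),
    Polynomial.C (c j t - c' j t) * Polynomial.X ^ j with hpdef
  have hroot : ∀ m : ℕ, p.eval ((t + m * (N * N') : ℕ) : ℝ) = 0 := by
    intro m
    have e1 := h.2 (t + m * (N * N')) (by omega)
    have e2 := h'.2 (t + m * (N * N')) (by omega)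
    rw [e1] at e2
    rw [hpdef, Polynomial.eval_finsetSum]
    have : ∀ j ∈ Finset.range (δ + 1),
        Polynomial.eval ((t + m * (N * N') : ℕ) : ℝ)
          (Polynomial.C (c j t - c' j t) * Polynomial.X ^ j) =
        c j (t + m * (N * N')) * ((t + m * (N * N') : ℕ) : ℝ) ^ j -
        c' j (t + m * (N * N')) * ((t + m * (N * N') : ℕ) : ℝ) ^ j := by
      intro j hj
      have hj' : j ≤ δ := by simpa [Nat.lt_succ_iff] using hj
      have a1 : c j (t + m * (N * N')) = c j t := by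
        have := hp j hj' (m * N') t ht
        have e : m * (N * N') = m * N' * N := by ring
        rwa [e]
      have a2 : c' j (t + m * (N * N')) = c' j t := by
        have := hp' j hj' (m * N) t ht
        have e : m * (N * N') = m * N * N' := by ring
        rwa [e]
      rw [a1, a2]
      simp
      ring
    rw [Finset.sum_congr rfl this, Finset.sum_sub_distrib, e2, sub_self]
  have hp0 : p = 0 := by
    apply Polynomial.eq_zero_of_infinite_isRoot
    apply Set.infinite_of_injective_forall_mem (f := fun m : ℕ => ((t + m * (N * N') : ℕ) : ℝ))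
    · intro m m' hm
      have hm2 : ((t + m * (N * N') : ℕ) : ℝ) = ((t + m' * (N * N') : ℕ) : ℝ) := hm
      have h1 : t + m * (N * N') = t + m' * (N * N') := by exact_mod_cast hm2
      have h2 : 0 < N * N' := Nat.mul_pos hN hN'
      have h3 : m * (N * N') = m' * (N * N') := by omega
      exact Nat.eq_of_mul_eq_mul_right h2 h3
    · intro m
      exact hroot m
  have hc : p.coeff k = c k t - c' k t := by
    rw [hpdef, Polynomial.finsetSum_coeff]
    simp only [Polynomial.coeff_C_mul, Polynomial.coeff_X_pow]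
    rw [Finset.sum_eq_single k]
    · simp
    · intro b _ hb
      simp [Ne.symm hb]
    · intro hk'
      exact absurd (Finset.mem_range.mpr (by omega)) hk'
  rw [hp0] at hc
  simp at hc
  linarith

/-! ## The relative interior of a full-dimensional set -/

theorem intrinsicInterior_eq_interior {d : ℕ} (s : Set (Fin d → ℝ))
    (h : affineSpan ℝ s = ⊤) : intrinsicInterior ℝ s = interior s := by
  apply Set.Subset.antisymm
  · intro x hx
    rw [mem_intrinsicInterior] at hx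
    obtain ⟨y, hy, rfl⟩ := hx
    obtain ⟨U, hUs, hUo, hyU⟩ := mem_interior.mp hy
    obtain ⟨V, hVo, rfl⟩ := isOpen_induced_iff.mp hUo
    refine mem_interior.mpr ⟨V, ?_, hVo, hyU⟩
    intro z hz
    have hz' : z ∈ affineSpan ℝ s := by rw [h]; trivial
    exact hUs (show (⟨z, hz'⟩ : affineSpan ℝ s) ∈ _ from hz)
  · exact interior_subset_intrinsicInterior

/-! ## The triangle -/

/-- The vertices. -/
def verts : Finset (Fin 2 → ℚ) := {![1/2, 1/2], ![1, 0], ![1, 4]}

/-- The triangle `conv{(1/2,1/2), (1,0), (1,4)}`. -/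
def tri : Set (Fin 2 → ℝ) := convexHull ℝ (toReal '' (verts : Set (Fin 2 → ℚ)))

/-- The line `x = y`. -/
def diag : (Fin 2 → ℚ) × ℚ := (![1, -1], 0)

theorem verts_image : toReal '' (verts : Set (Fin 2 → ℚ)) =
    {![(1/2 : ℝ), 1/2], ![1, 0], ![1, 4]} := by
  have h1 : toReal (![1/2, 1/2] : Fin 2 → ℚ) = ![(1/2 : ℝ), 1/2] := by
    funext i; fin_cases i <;> simp [toReal]
  have h2 : toReal (![1, 0] : Fin 2 → ℚ) = ![(1 : ℝ), 0] := by
    funext i; fin_cases i <;> simp [toReal]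
  have h3 : toReal (![1, 4] : Fin 2 → ℚ) = ![(1 : ℝ), 4] := by
    funext i; fin_cases i <;> simp [toReal]
  simp only [verts, Finset.coe_insert, Finset.coe_singleton, Set.image_insert_eq,
    Set.image_singleton, h1, h2, h3]

theorem tri_eq : tri = {x : Fin 2 → ℝ | x 0 ≤ 1 ∧ 1 - x 0 ≤ x 1 ∧ x 1 ≤ 7 * x 0 - 3} := by
  rw [tri, verts_image]
  apply Set.Subset.antisymm
  · apply convexHull_min
    · intro x hx
      simp only [Set.mem_insert_iff, Set.mem_singleton_iff] at hx
      rcases hx with rfl | rfl | rfl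
      · simp; norm_num
      · simp; norm_num
      · simp; norm_num
    · intro x hx y hy a b ha hb hab
      simp only [Set.mem_ofPred_eq, Pi.add_apply, Pi.smul_apply, smul_eq_mul] at *
      obtain ⟨h1, h2, h3⟩ := hx
      obtain ⟨h4, h5, h6⟩ := hy
      have hb' : b = 1 - a := by linarith
      subst hb'
      refine ⟨?_, ?_, ?_⟩ <;> nlinarith
  · rintro x ⟨h1, h2, h3⟩
    have hset : ({![(1/2 : ℝ), 1/2], ![1, 0], ![1, 4]} : Set (Fin 2 → ℝ)) =
        {![(1/2 : ℝ), 1/2], ![1, 0], ![1, 4]} := rfl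
    -- barycentric coordinates
    -- a (1/2,1/2) + b (1,0) + c (1,4), a = 2 (1 - x0), c = (x1 - (1 - x0)) / 4, b = (7x0-3-x1)/4
    have key : x = (2 * (1 - x 0)) • ![(1/2 : ℝ), 1/2] + ((7 * x 0 - 3 - x 1) / 4) • ![(1 : ℝ), 0] +
        ((x 1 - (1 - x 0)) / 4) • ![(1 : ℝ), 4] := by
      funext i
      fin_cases i
      · simp; ring
      · simp; ring
    have hc : Convex ℝ (convexHull ℝ ({![(1/2 : ℝ), 1/2], ![1, 0], ![1, 4]} : Set (Fin 2 → ℝ))) :=
      convex_convexHull ℝ _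
    have m1 : (![(1/2 : ℝ), 1/2] : Fin 2 → ℝ) ∈
        convexHull ℝ ({![(1/2 : ℝ), 1/2], ![1, 0], ![1, 4]} : Set (Fin 2 → ℝ)) :=
      subset_convexHull ℝ _ (by simp)
    have m2 : (![(1 : ℝ), 0] : Fin 2 → ℝ) ∈
        convexHull ℝ ({![(1/2 : ℝ), 1/2], ![1, 0], ![1, 4]} : Set (Fin 2 → ℝ)) :=
      subset_convexHull ℝ _ (by simp)
    have m3 : (![(1 : ℝ), 4] : Fin 2 → ℝ) ∈
        convexHull ℝ ({![(1/2 : ℝ), 1/2], ![1, 0], ![1, 4]} : Set (Fin 2 → ℝ)) :=
      subset_convexHull ℝ _ (by simp)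
    have := hc.sum_mem (t := (Finset.univ : Finset (Fin 3)))
      (w := ![2 * (1 - x 0), (7 * x 0 - 3 - x 1) / 4, (x 1 - (1 - x 0)) / 4])
      (z := ![![(1/2 : ℝ), 1/2], ![(1 : ℝ), 0], ![(1 : ℝ), 4]])
      (by
        intro i _
        fin_cases i
        · simp; linarith
        · simp; linarith
        · simp; linarith)
      (by
        simp [Fin.sum_univ_three]
        ring)
      (by
        intro i _
        fin_cases i
        · exact m1
        · exact m2
        · exact m3)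
    rw [Fin.sum_univ_three] at this
    rw [key]
    exact this

theorem interior_tri : interior tri =
    {x : Fin 2 → ℝ | x 0 < 1 ∧ 1 - x 0 < x 1 ∧ x 1 < 7 * x 0 - 3} := by
  rw [tri_eq]
  apply Set.Subset.antisymm
  · intro x hx
    rw [mem_interior_iff_mem_nhds, Metric.mem_nhds_iff] at hx
    obtain ⟨ε, hε, hb⟩ := hx
    have key : ∀ u : Fin 2 → ℝ, (∀ i, |u i| ≤ 1) → x + (ε / 2) • u ∈
        {x : Fin 2 → ℝ | x 0 ≤ 1 ∧ 1 - x 0 ≤ x 1 ∧ x 1 ≤ 7 * x 0 - 3} := by
      intro u hu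
      apply hb
      rw [Metric.mem_ball, dist_eq_norm]
      have : x + (ε / 2) • u - x = (ε / 2) • u := by abel
      rw [this]
      rw [pi_norm_lt_iff hε]
      intro i
      rw [Pi.smul_apply, smul_eq_mul, Real.norm_eq_abs, abs_mul, abs_of_pos (by linarith : ε / 2 > 0)]
      have := hu i
      nlinarith [abs_nonneg (u i)]
    have k1 := key ![1, 0] (by intro i; fin_cases i <;> simp)
    have k2 := key ![0, -1] (by intro i; fin_cases i <;> simp)
    have k3 := key ![0, 1] (by intro i; fin_cases i <;> simp)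
    simp only [Set.mem_ofPred_eq, Pi.add_apply, Pi.smul_apply, smul_eq_mul, Matrix.cons_val_zero,
      Matrix.cons_val_one, Matrix.cons_val_fin_one] at k1 k2 k3
    refine ⟨?_, ?_, ?_⟩
    · linarith [k1.1]
    · linarith [k2.2.1]
    · linarith [k3.2.2]
  · apply interior_maximal
    · rintro x ⟨h1, h2, h3⟩
      exact ⟨h1.le, h2.le, h3.le⟩
    · have c0 : Continuous fun x : Fin 2 → ℝ => x 0 := continuous_apply 0
      have c1 : Continuous fun x : Fin 2 → ℝ => x 1 := continuous_apply 1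
      refine IsOpen.inter (isOpen_lt c0 continuous_const) (IsOpen.inter ?_ ?_)
      · exact isOpen_lt (continuous_const.sub c0) c1
      · exact isOpen_lt c1 ((continuous_const.mul c0).sub continuous_const)

theorem affineSpan_tri : affineSpan ℝ tri = ⊤ := by
  have h : (interior tri).Nonempty := by
    refine ⟨![3/4, 3/4], ?_⟩
    rw [interior_tri]
    simp only [Set.mem_ofPred_eq, Matrix.cons_val_zero, Matrix.cons_val_one,
      Matrix.cons_val_fin_one]
    norm_num
  have h2 : (convexHull ℝ tri) = tri := (convex_convexHull ℝ _).convexHull_eq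
  have := interior_convexHull_nonempty_iff_affineSpan_eq_top (s := tri)
  rw [h2] at this
  exact this.mp h

theorem relint_tri : intrinsicInterior ℝ tri =
    {x : Fin 2 → ℝ | x 0 < 1 ∧ 1 - x 0 < x 1 ∧ x 1 < 7 * x 0 - 3} := by
  rw [intrinsicInterior_eq_interior _ affineSpan_tri, interior_tri]

theorem dim_tri : dimP tri = 2 := by
  unfold dimP
  rw [← direction_affineSpan, affineSpan_tri, AffineSubspace.direction_top]
  simp

theorem mem_diag (x : Fin 2 → ℝ) : x ∈ hyperplane diag ↔ x 0 = x 1 := by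
  unfold hyperplane diag
  simp only [Set.mem_ofPred_eq, Fin.sum_univ_two, Matrix.cons_val_zero, Matrix.cons_val_one,
    Matrix.cons_val_fin_one]
  push_cast
  constructor
  · intro h; linarith
  · intro h; linarith

theorem insideOut : IsInsideOut tri {diag} := by
  refine ⟨⟨verts, rfl⟩, by rw [dim_tri]; norm_num, ?_, ?_, ?_⟩
  · intro h hh
    rw [Finset.mem_singleton] at hh
    subst hh
    intro h0
    have := congrFun h0 0
    simp [diag] at this
  · intro h hh
    rw [Finset.mem_singleton] at hh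
    subst hh
    intro hsub
    have : (![1, 0] : Fin 2 → ℝ) ∈ tri := by
      rw [tri_eq]
      simp
      norm_num
    have := hsub this
    rw [mem_diag] at this
    simp at this
  · intro S hS hne _
    have : S = {diag} := by
      rcases Finset.subset_singleton_iff.mp hS with h | h
      · exact absurd h hne.ne_empty
      · exact h
    subst this
    refine ⟨![3/4, 3/4], ?_, ?_⟩
    · simp only [Finset.mem_singleton, Set.iInter_iInter_eq_left]
      rw [mem_diag]
      simp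
    · rw [relint_tri]
      simp only [Set.mem_ofPred_eq, Matrix.cons_val_zero, Matrix.cons_val_one,
        Matrix.cons_val_fin_one]
      norm_num

/-! ## Counting -/

/-- integer points of `t P°` -/
noncomputable def pts (t : ℕ) : Finset (ℤ × ℤ) :=
  ((Finset.Icc 0 (t : ℤ)) ×ˢ (Finset.Icc 0 (4 * (t : ℤ)))).filter
    (fun p => p.1 < t ∧ t - p.1 < p.2 ∧ p.2 < 7 * p.1 - 3 * t)

theorem mem_pts (t : ℕ) (p : ℤ × ℤ) :
    p ∈ pts t ↔ p.1 < t ∧ t - p.1 < p.2 ∧ p.2 < 7 * p.1 - 3 * t := by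
  unfold pts
  rw [Finset.mem_filter, Finset.mem_product, Finset.mem_Icc, Finset.mem_Icc]
  constructor
  · rintro ⟨_, h⟩; exact h
  · rintro ⟨h1, h2, h3⟩
    refine ⟨⟨⟨?_, ?_⟩, ?_, ?_⟩, h1, h2, h3⟩ <;> omega

/-- the point `(p.1/t, p.2/t)` -/
noncomputable def scale (t : ℕ) (p : ℤ × ℤ) : Fin 2 → ℝ := ![(p.1 : ℝ) / t, (p.2 : ℝ) / t]

theorem scale_injective (t : ℕ) (ht : 1 ≤ t) : Function.Injective (scale t) := by
  intro p q h
  have ht' : (t : ℝ) ≠ 0 := by positivity
  have h0 := congrFun h 0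
  have h1 := congrFun h 1
  simp only [scale, Matrix.cons_val_zero, Matrix.cons_val_one, Matrix.cons_val_fin_one] at h0 h1
  rw [div_left_inj' ht'] at h0 h1
  exact Prod.ext (by exact_mod_cast h0) (by exact_mod_cast h1)

theorem scale_mem (t : ℕ) (ht : 1 ≤ t) (p : ℤ × ℤ) :
    scale t p ∈ intrinsicInterior ℝ tri ↔ p ∈ pts t := by
  have ht' : (0 : ℝ) < t := by positivity
  rw [relint_tri, mem_pts]
  simp only [scale, Set.mem_ofPred_eq, Matrix.cons_val_zero, Matrix.cons_val_one,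
    Matrix.cons_val_fin_one]
  have e1 : (p.1 : ℝ) / t < 1 ↔ p.1 < t := by
    rw [div_lt_one ht']; exact_mod_cast Iff.rfl
  have e2 : 1 - (p.1 : ℝ) / t < (p.2 : ℝ) / t ↔ t - p.1 < p.2 := by
    rw [show 1 - (p.1 : ℝ) / t = ((t : ℝ) - p.1) / t by field_simp]
    rw [div_lt_div_iff_of_pos_right ht']
    exact_mod_cast Iff.rfl
  have e3 : (p.2 : ℝ) / t < 7 * ((p.1 : ℝ) / t) - 3 ↔ p.2 < 7 * p.1 - 3 * t := by
    rw [show 7 * ((p.1 : ℝ) / t) - 3 = (7 * (p.1 : ℝ) - 3 * t) / t by field_simp]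
    rw [div_lt_div_iff_of_pos_right ht']
    exact_mod_cast Iff.rfl
  rw [e1, e2, e3]

theorem Ew_eq (t : ℕ) (ht : 1 ≤ t) : Ew tri t = (pts t).card := by
  unfold Ew
  have : {x : Fin 2 → ℝ | x ∈ intrinsicInterior ℝ tri ∧ ∀ i, ∃ z : ℤ, x i = (z : ℝ) / (t : ℝ)} =
      (scale t) '' (pts t : Set (ℤ × ℤ)) := by
    ext x
    constructor
    · rintro ⟨h1, h2⟩
      obtain ⟨a, ha⟩ := h2 0
      obtain ⟨b, hb⟩ := h2 1
      have hx : x = scale t (a, b) := by
        funext i; fin_cases i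
        · exact ha
        · exact hb
      refine ⟨(a, b), ?_, hx.symm⟩
      rw [hx, scale_mem t ht] at h1
      exact h1
    · rintro ⟨p, hp, rfl⟩
      refine ⟨(scale_mem t ht p).mpr hp, ?_⟩
      intro i
      fin_cases i
      · exact ⟨p.1, rfl⟩
      · exact ⟨p.2, rfl⟩
  rw [this, Set.ncard_image_of_injective _ (scale_injective t ht), Set.ncard_coe_finset]

theorem Eo_eq (t : ℕ) (ht : 1 ≤ t) :
    Eo tri {diag} t = ((pts t).filter (fun p => p.1 ≠ p.2)).card := by
  unfold Eo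
  have ht' : (t : ℝ) ≠ 0 := by positivity
  have hd : ∀ p : ℤ × ℤ, (∀ h ∈ ({diag} : Finset ((Fin 2 → ℚ) × ℚ)), scale t p ∉ hyperplane h) ↔
      p.1 ≠ p.2 := by
    intro p
    constructor
    · intro h h'
      apply h diag (Finset.mem_singleton_self _)
      rw [mem_diag]
      simp only [scale, Matrix.cons_val_zero, Matrix.cons_val_one, Matrix.cons_val_fin_one, h']
    · intro h h1 hh1 h2
      rw [Finset.mem_singleton] at hh1
      subst hh1
      rw [mem_diag] at h2
      simp only [scale, Matrix.cons_val_zero, Matrix.cons_val_one, Matrix.cons_val_fin_one] at h2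
      rw [div_left_inj' ht'] at h2
      exact h (by exact_mod_cast h2)
  have : {x : Fin 2 → ℝ | x ∈ intrinsicInterior ℝ tri ∧
      (∀ h ∈ ({diag} : Finset ((Fin 2 → ℚ) × ℚ)), x ∉ hyperplane h) ∧
      ∀ i, ∃ z : ℤ, x i = (z : ℝ) / (t : ℝ)} =
      (scale t) '' (((pts t).filter (fun p => p.1 ≠ p.2) : Finset (ℤ × ℤ)) : Set (ℤ × ℤ)) := by
    ext x
    constructor
    · rintro ⟨h1, h3, h2⟩
      obtain ⟨a, ha⟩ := h2 0
      obtain ⟨b, hb⟩ := h2 1
      have hx : x = scale t (a, b) := by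
        funext i; fin_cases i
        · exact ha
        · exact hb
      refine ⟨(a, b), ?_, hx.symm⟩
      rw [hx, scale_mem t ht] at h1
      rw [hx] at h3
      rw [Finset.mem_coe, Finset.mem_filter]
      exact ⟨h1, (hd _).mp h3⟩
    · rintro ⟨p, hp, rfl⟩
      rw [Finset.mem_coe, Finset.mem_filter] at hp
      refine ⟨(scale_mem t ht p).mpr hp.1, (hd _).mpr hp.2, ?_⟩
      intro i
      fin_cases i
      · exact ⟨p.1, rfl⟩
      · exact ⟨p.2, rfl⟩
  rw [this, Set.ncard_image_of_injective _ (scale_injective t ht), Set.ncard_coe_finset]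

/-- columns: `a = m + 1 + j` for `j < n`, with `8 j + c` points each -/
theorem card_pts_aux (t m n c : ℕ) (h : (c = 7 ∧ t = 2 * m ∧ n + 1 = m) ∨
    (c = 3 ∧ t = 2 * m + 1 ∧ n = m)) :
    (pts t).card = ∑ j ∈ Finset.range n, (8 * j + c) := by
  have : (pts t).card = ((Finset.range n).sigma (fun j => Finset.range (8 * j + c))).card := by
    symm
    apply Finset.card_nbij' (fun s => (((m + 1 + s.1 : ℕ) : ℤ),
        (t : ℤ) - ((m + 1 + s.1 : ℕ) : ℤ) + 1 + (s.2 : ℤ)))
      (fun p => ⟨(p.1 - m - 1).toNat, (p.2 - t + p.1 - 1).toNat⟩)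
    · rintro ⟨j, i⟩ hs
      simp only [Finset.coe_sigma, Finset.coe_range, Set.mem_sigma_iff, Set.mem_Iio] at hs
      rw [Finset.mem_coe, mem_pts]
      simp only
      rcases h with ⟨rfl, rfl, h3⟩ | ⟨rfl, rfl, h3⟩
      · refine ⟨?_, ?_, ?_⟩ <;> push_cast <;> omega
      · refine ⟨?_, ?_, ?_⟩ <;> push_cast <;> omega
    · rintro ⟨a, b⟩ hp
      rw [Finset.mem_coe, mem_pts] at hp
      simp only at hp
      simp only [Finset.coe_sigma, Finset.coe_range, Set.mem_sigma_iff, Set.mem_Iio]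
      rcases h with ⟨rfl, rfl, h3⟩ | ⟨rfl, rfl, h3⟩
      · push_cast at *
        refine ⟨?_, ?_⟩ <;> omega
      · push_cast at *
        refine ⟨?_, ?_⟩ <;> omega
    · rintro ⟨j, i⟩ hs
      simp only [Finset.coe_sigma, Finset.coe_range, Set.mem_sigma_iff, Set.mem_Iio] at hs
      have e1 : ((((m + 1 + j : ℕ) : ℤ)) - m - 1).toNat = j := by omega
      have e2 : (((t : ℤ) - ((m + 1 + j : ℕ) : ℤ) + 1 + (i : ℤ)) - t +
          ((m + 1 + j : ℕ) : ℤ) - 1).toNat = i := by omega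
      simp only [e1, e2]
    · rintro ⟨a, b⟩ hp
      rw [Finset.mem_coe, mem_pts] at hp
      simp only at hp
      apply Prod.ext
      · simp only
        rcases h with ⟨rfl, rfl, h3⟩ | ⟨rfl, rfl, h3⟩
        · push_cast at *; omega
        · push_cast at *; omega
      · simp only
        rcases h with ⟨rfl, rfl, h3⟩ | ⟨rfl, rfl, h3⟩
        · push_cast at *; omega
        · push_cast at *; omega
  rw [this, Finset.card_sigma]
  simp

theorem card_diag_aux (t m n : ℕ) (h : (t = 2 * m ∧ n + 1 = m) ∨ (t = 2 * m + 1 ∧ n = m)) :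
    ((pts t).filter (fun p => p.1 = p.2)).card = n := by
  have : ((pts t).filter (fun p => p.1 = p.2)).card = (Finset.range n).card := by
    symm
    apply Finset.card_nbij' (fun s => (((m + 1 + s : ℕ) : ℤ), ((m + 1 + s : ℕ) : ℤ)))
      (fun p => (p.1 - m - 1).toNat)
    · intro j hs
      rw [Finset.mem_coe, Finset.mem_range] at hs
      rw [Finset.mem_coe, Finset.mem_filter, mem_pts]
      simp only
      rcases h with ⟨rfl, h3⟩ | ⟨rfl, h3⟩
      · refine ⟨⟨?_, ?_, ?_⟩, trivial⟩ <;> push_cast <;> omega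
      · refine ⟨⟨?_, ?_, ?_⟩, trivial⟩ <;> push_cast <;> omega
    · rintro ⟨a, b⟩ hp
      rw [Finset.mem_coe, Finset.mem_filter, mem_pts] at hp
      simp only at hp
      rw [Finset.mem_coe, Finset.mem_range]
      rcases h with ⟨rfl, h3⟩ | ⟨rfl, h3⟩
      · push_cast at *; omega
      · push_cast at *; omega
    · intro j hs
      simp only
      omega
    · rintro ⟨a, b⟩ hp
      rw [Finset.mem_coe, Finset.mem_filter, mem_pts] at hp
      simp only at hp
      apply Prod.ext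
      · simp only
        rcases h with ⟨rfl, h3⟩ | ⟨rfl, h3⟩
        · push_cast at *; omega
        · push_cast at *; omega
      · simp only
        rcases h with ⟨rfl, h3⟩ | ⟨rfl, h3⟩
        · push_cast at *; omega
        · push_cast at *; omega
  rw [this, Finset.card_range]

theorem sum_aux (n c : ℕ) : ((∑ j ∈ Finset.range n, (8 * j + c) : ℕ) : ℝ) =
    4 * n * (n - 1) + c * n := by
  induction n with
  | zero => simp
  | succ n ih =>
    rw [Finset.sum_range_succ]
    push_cast at ih ⊢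
    rw [ih]
    ring

/-- `c^w_k(t)`. -/
noncomputable def cw (k t : ℕ) : ℝ :=
  if k = 0 then (if Even t then 1 else 3 / 2) else if k = 1 then -(5 / 2) else if k = 2 then 1 else 0

/-- `c_k(t)`. -/
noncomputable def co (k _t : ℕ) : ℝ :=
  if k = 0 then 2 else if k = 1 then -3 else if k = 2 then 1 else 0

theorem Ew_formula (t : ℕ) (ht : 1 ≤ t) :
    (Ew tri t : ℝ) = ∑ k ∈ Finset.range (2 + 1), cw k t * (t : ℝ) ^ k := by
  rw [Ew_eq t ht]
  rcases Nat.even_or_odd' t with ⟨m, h | h⟩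
  · obtain ⟨n, rfl⟩ : ∃ n, m = n + 1 := ⟨m - 1, by omega⟩
    rw [card_pts_aux t (n + 1) n 7 (Or.inl ⟨rfl, h, rfl⟩), sum_aux]
    have he : Even t := ⟨n + 1, by omega⟩
    simp only [Finset.sum_range_succ, Finset.sum_range_zero, cw, he, if_true]
    subst h
    push_cast
    norm_num
    ring
  · rw [card_pts_aux t m m 3 (Or.inr ⟨rfl, h, rfl⟩), sum_aux]
    have he : ¬ Even t := by
      rw [Nat.not_even_iff_odd]; exact ⟨m, h⟩
    simp only [Finset.sum_range_succ, Finset.sum_range_zero, cw, he, if_true, if_false]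
    subst h
    push_cast
    norm_num
    ring

theorem Eo_formula (t : ℕ) (ht : 1 ≤ t) :
    (Eo tri {diag} t : ℝ) = ∑ k ∈ Finset.range (2 + 1), co k t * (t : ℝ) ^ k := by
  rw [Eo_eq t ht]
  have hsplit : ((pts t).filter (fun p => p.1 = p.2)).card +
      ((pts t).filter (fun p => p.1 ≠ p.2)).card = (pts t).card :=
    Finset.card_filter_add_card_filter_not (fun p : ℤ × ℤ => p.1 = p.2)
  have hR : (((pts t).filter (fun p => p.1 ≠ p.2)).card : ℝ) =
      ((pts t).card : ℝ) - (((pts t).filter (fun p => p.1 = p.2)).card : ℝ) := by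
    rw [← hsplit]; push_cast; ring
  rw [hR]
  rcases Nat.even_or_odd' t with ⟨m, h | h⟩
  · obtain ⟨n, rfl⟩ : ∃ n, m = n + 1 := ⟨m - 1, by omega⟩
    rw [card_pts_aux t (n + 1) n 7 (Or.inl ⟨rfl, h, rfl⟩), sum_aux,
      card_diag_aux t (n + 1) n (Or.inl ⟨h, rfl⟩)]
    simp only [Finset.sum_range_succ, Finset.sum_range_zero, co]
    subst h
    push_cast
    norm_num
    ring
  · rw [card_pts_aux t m m 3 (Or.inr ⟨rfl, h, rfl⟩), sum_aux,
      card_diag_aux t m m (Or.inr ⟨h, rfl⟩)]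
    simp only [Finset.sum_range_succ, Finset.sum_range_zero, co]
    subst h
    push_cast
    norm_num
    ring

theorem minPeriod_const (f : ℕ → ℝ) (a : ℝ) (h : ∀ t, f t = a) : minPeriod f = 1 := by
  unfold minPeriod
  have h1 : (1 : ℕ) ∈ {N : ℕ | 1 ≤ N ∧ ∀ t : ℕ, 1 ≤ t → f (t + N) = f t} :=
    ⟨le_rfl, fun t _ => by rw [h, h]⟩
  have h2 := Nat.sInf_le h1
  have h3 := Nat.sInf_mem (⟨1, h1⟩ : Set.Nonempty _)
  have h4 := h3.1
  omega

theorem minPeriod_cw0 : minPeriod (cw 0) = 2 := by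
  unfold minPeriod
  have h1 : (2 : ℕ) ∈ {N : ℕ | 1 ≤ N ∧ ∀ t : ℕ, 1 ≤ t → cw 0 (t + N) = cw 0 t} := by
    refine ⟨by norm_num, fun t _ => ?_⟩
    have : Even (t + 2) ↔ Even t := by
      rw [Nat.even_add]; simp
    simp only [cw, this]
  have h2 := Nat.sInf_le h1
  have h3 := Nat.sInf_mem (⟨2, h1⟩ : Set.Nonempty _)
  have h4 := h3.1
  by_contra hne
  have h5 : sInf {N : ℕ | 1 ≤ N ∧ ∀ t : ℕ, 1 ≤ t → cw 0 (t + N) = cw 0 t} = 1 := by omega
  rw [h5] at h3
  have h6 := h3.2 1 le_rfl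
  norm_num [cw] at h6

/-- **Main theorem.** The coefficient functions of a quasipolynomial are unique, and there is an
inside-out polytope `(P, H)` in the plane, with `dim P = 2`, whose coefficient functions `c`
(of `E°`) and `c'` (of `E^w`) have minimal periods `p_0 = 1`, `p_1 = 1`, `p^w_0 = 2`, `p^w_1 = 1`;
so `p_1 p^w_0 ∤ p_0 p^w_1`. -/
theorem result :
    (∀ (E : ℕ → ℕ) (δ : ℕ) (c c' : ℕ → ℕ → ℝ), IsCoeffs E δ c → IsCoeffs E δ c' →
      ∀ k ≤ δ, ∀ t : ℕ, 1 ≤ t → c k t = c' k t) ∧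
    ∃ (P : Set (Fin 2 → ℝ)) (H : Finset ((Fin 2 → ℚ) × ℚ)), IsInsideOut P H ∧ dimP P = 2 ∧
      ∃ c c' : ℕ → ℕ → ℝ, IsCoeffs (Eo P H) 2 c ∧ IsCoeffs (Ew P) 2 c' ∧
        minPeriod (c 0) = 1 ∧ minPeriod (c 1) = 1 ∧ minPeriod (c' 0) = 2 ∧ minPeriod (c' 1) = 1 ∧
        ¬ (minPeriod (c 1) * minPeriod (c' 0) ∣ minPeriod (c 0) * minPeriod (c' 1)) := by
  refine ⟨coeffs_unique, tri, {diag}, insideOut, dim_tri, co, cw, ⟨?_, Eo_formula⟩,
    ⟨?_, Ew_formula⟩, ?_, ?_, minPeriod_cw0, ?_, ?_⟩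
  · intro k _
    exact ⟨1, le_rfl, fun t _ => rfl⟩
  · intro k _
    refine ⟨2, by norm_num, fun t _ => ?_⟩
    have : Even (t + 2) ↔ Even t := by
      rw [Nat.even_add]; simp
    simp only [cw, this]
  · exact minPeriod_const _ 2 (fun t => by simp [co])
  · exact minPeriod_const _ (-3) (fun t => by simp [co])
  · exact minPeriod_const _ (-(5/2)) (fun t => by simp [cw])
  · rw [minPeriod_cw0, minPeriod_const (co 0) 2 (fun t => by simp [co]),
      minPeriod_const (co 1) (-3) (fun t => by simp [co]),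
      minPeriod_const (cw 1) (-(5/2)) (fun t => by simp [cw])]
    norm_num

end Pool.Agent.Results.MP_76d2cf_co.PeriodRatioFails
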